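import Pool.Agent.Helper96.LN6.Ultra
import Pool.Agent.Helper2.LN.Systems

/-!
# LN6-F2 (MP_730da0_ag): (Tr), `s_0⁻¹ s_2` moves a root only inside its corner class

Paper proof.  `τ = σ₀⁻¹ σ₂`, `x_j = τ^j x`, `W_(x_j) (u, v) = W_x (u - jπi, v + jπi)`.  Suppose `R x_0 x_1`, `n₀ x_0 x_1 = n₂ x_0 x_1`.
`D (u,v) = L_01 (u - πi, v + πi) - L_01 (u,v)`, `exp D = (W_1 - W_2)/(W_0 - W_1)`.  `D` tends to one limit `κ` along all `(-t + iy, -t + iy')`: if `x_2 = x_0`, `exp D = -1`, `D` is constant; else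
`exp D = - λ`, `λ` the ratio of the triple `(x_1; x_2, x_0)` with exponents `0` (`inv`), `diag`, `vertu`, `vert`.
`G_j (t) = L_01 (-t - jπi, -t + jπi) - L_01 (-t,-t) → j κ`, `G_M = 2πi (n₂ - n₀) = 0`, so `κ = 0`, `exp G_j → 1`, but `∑_(j < M) exp G_j = ∑ (W_(x_j) - W_(x_(j+1)))/(W_0 - W_1) = 0`.
-/

namespace Pool.Agent.Helper96.LN6

open Pool.Agent.Helper96.LN3

variable {F : Type} {R : F → F → Prop} {σ₀ σ₂ : Equiv.Perm F} {n₀ n₂ : F → F → ℤ} {M : ℕ} {W : F → ℂ → ℂ → ℂ}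
  {L : F → F → ℂ → ℂ → ℂ}

theorem Hl_convex : Convex ℝ Hl := by
  have h : Hl = Complex.reLm ⁻¹' Set.Iio 0 := by
    ext z
    simp [Hl]
  rw [h]
  exact (convex_Iio 0).linear_preimage _

/-- A continuous function on `Hl ×ˢ Hl` with constant exponential is constant. -/
theorem const_of_exp {f : ℂ × ℂ → ℂ} (hf : ContinuousOn f (Hl ×ˢ Hl)) (c : ℂ)
    (h : ∀ z ∈ Hl ×ˢ Hl, Complex.exp (f z) = c) : ∃ d : ℂ, ∀ z ∈ Hl ×ˢ Hl, f z = d := by
  have hm : ((-1, -1) : ℂ × ℂ) ∈ Hl ×ˢ Hl := by simp [Hl]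
  have hp : PreconnectedSpace (Hl ×ˢ Hl : Set (ℂ × ℂ)) :=
    Subtype.preconnectedSpace (Hl_convex.prod Hl_convex).isPreconnected
  have h1 := Pool.Agent.Helper2.LN.exp_uniq (Hl ×ˢ Hl : Set (ℂ × ℂ)) ⟨fun _ => c, continuous_const⟩
    ⟨(Hl ×ˢ Hl).domRestrict f, continuousOn_iff_continuous_domRestrict.1 hf⟩ ⟨fun _ => f (-1, -1), continuous_const⟩
    (fun a => h a a.2) (fun _ => h _ hm) ⟨⟨(-1, -1), hm⟩, rfl⟩
  refine ⟨f (-1, -1), fun z hz => ?_⟩
  have h2 := congrArg (fun s : C((Hl ×ˢ Hl : Set (ℂ × ℂ)), ℂ) => s ⟨z, hz⟩) h1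
  exact h2

theorem Hl_sub {z : ℂ} (hz : z ∈ Hl) : z - Real.pi * Complex.I ∈ Hl := by
  have h1 := Hl_add hz (-Real.pi)
  convert h1 using 1
  push_cast
  ring

theorem Hl_addpi {z : ℂ} (hz : z ∈ Hl) : z + Real.pi * Complex.I ∈ Hl := Hl_add hz _

theorem RFam.W_tau (h : RFam R σ₀ σ₂ n₀ n₂ M W L) (hc : σ₀ * σ₂ = σ₂ * σ₀) (a : F) {u v : ℂ} (hu : u ∈ Hl)
    (hv : v ∈ Hl) : W a (u - Real.pi * Complex.I) (v + Real.pi * Complex.I) = W ((σ₀⁻¹ * σ₂) a) u v := by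
  have h1 := h.tru (σ₀⁻¹ a) _ (Hl_sub hu) _ (Hl_addpi hv)
  rw [sub_add_cancel, show σ₀ (σ₀⁻¹ a) = a from σ₀.apply_symm_apply a] at h1
  rw [← h1, h.trv _ _ hu _ hv]
  have h2 : σ₂ * σ₀⁻¹ = σ₀⁻¹ * σ₂ := by
    rw [eq_inv_mul_iff_mul_eq, ← mul_assoc, hc, mul_inv_cancel_right]
  rw [← h2, Equiv.Perm.mul_apply]

theorem RFam.W_tauj (h : RFam R σ₀ σ₂ n₀ n₂ M W L) (hc : σ₀ * σ₂ = σ₂ * σ₀) (j : ℕ) : ∀ (a : F),
    ∀ u ∈ Hl, ∀ v ∈ Hl, W a (u + (-(j * Real.pi) : ℝ) * Complex.I) (v + ((j * Real.pi : ℝ)) * Complex.I) =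
      W (((σ₀⁻¹ * σ₂) ^ j) a) u v := by
  induction j with
  | zero => intro a u _ v _; simp
  | succ j ih =>
    intro a u hu v hv
    have e1 : u + ((-((j + 1 : ℕ) * Real.pi) : ℝ) : ℂ) * Complex.I =
        (u + ((-(j * Real.pi) : ℝ) : ℂ) * Complex.I) - Real.pi * Complex.I := by
      push_cast
      ring
    have e2 : v + (((j + 1 : ℕ) * Real.pi : ℝ) : ℂ) * Complex.I =
        (v + (((j : ℕ) * Real.pi : ℝ) : ℂ) * Complex.I) + Real.pi * Complex.I := by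
      push_cast
      ring
    rw [e1, e2, h.W_tau hc a (Hl_add hu _) (Hl_add hv _), ih _ u hu v hv, pow_succ]
    rfl

/-- (Tr) -/
theorem RFam.tr (h : RFam R σ₀ σ₂ n₀ n₂ M W L) (hM : 0 < M) (hs : ∀ a b, R a b → R b a)
    (ht : ∀ a b c, R a b → R b c → a ≠ c → R a c)
    (hR : ∀ a b, R a b → R ((σ₀⁻¹ * σ₂) a) ((σ₀⁻¹ * σ₂) b)) (hc : σ₀ * σ₂ = σ₂ * σ₀)
    (i₀ : ∀ a b, R a b → n₀ ((σ₀⁻¹ * σ₂) a) ((σ₀⁻¹ * σ₂) b) = n₀ a b)
    (i₂ : ∀ a b, R a b → n₂ ((σ₀⁻¹ * σ₂) a) ((σ₀⁻¹ * σ₂) b) = n₂ a b)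
    (s₀ : ∀ a b, R a b → n₀ a b = n₀ b a) (s₂ : ∀ a b, R a b → n₂ a b = n₂ b a)
    (x : F) (hx : R x ((σ₀⁻¹ * σ₂) x)) (hn : n₀ x ((σ₀⁻¹ * σ₂) x) = n₂ x ((σ₀⁻¹ * σ₂) x)) : False := by
  set τ : Equiv.Perm F := σ₀⁻¹ * σ₂ with hτ
  set D : ℂ × ℂ → ℂ := fun z => L x (τ x) (z.1 - Real.pi * Complex.I) (z.2 + Real.pi * Complex.I) -
    L x (τ x) z.1 z.2 with hD
  have hx2 : R (τ x) (τ (τ x)) := hR _ _ hx
  have hDc : ContinuousOn D (Hl ×ˢ Hl) := by
    refine ContinuousOn.sub ?_ (h.cont x (τ x) hx)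
    exact ContinuousOn.comp (h.cont x (τ x) hx)
      (f := fun z : ℂ × ℂ => (z.1 - Real.pi * Complex.I, z.2 + Real.pi * Complex.I)) (by fun_prop)
      fun z hz => ⟨Hl_sub hz.1, Hl_addpi hz.2⟩
  have hDe : ∀ u ∈ Hl, ∀ v ∈ Hl, Complex.exp (D (u, v)) =
      (W (τ x) u v - W (τ (τ x)) u v) / (W x u v - W (τ x) u v) := by
    intro u hu v hv
    simp only [hD]
    rw [Complex.exp_sub, h.exp x (τ x) hx _ (Hl_sub hu) _ (Hl_addpi hv), h.exp x (τ x) hx u hu v hv,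
      h.W_tau hc x hu hv, h.W_tau hc (τ x) hu hv]
  -- the common limit
  have hlim : ∃ κ : ℂ, ∀ y y' : ℝ, Filter.Tendsto (fun t : ℝ => D (-((1 : ℕ) * t) + y * Complex.I,
      -((1 : ℕ) * t) + y' * Complex.I)) Filter.atTop (nhds κ) := by
    by_cases h20 : τ (τ x) = x
    · obtain ⟨d, hd⟩ := const_of_exp hDc (-1) (by
        rintro ⟨u, v⟩ ⟨hu, hv⟩
        rw [hDe u hu v hv, h20]
        have h1 := h.ne hx hu hv
        rw [div_eq_iff h1]
        ring)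
      refine ⟨d, fun y y' => ?_⟩
      refine (tendsto_const_nhds (x := d)).congr' ?_
      filter_upwards [Filter.eventually_gt_atTop (0 : ℝ)] with t ht
      exact (hd _ ⟨Hl_add (Hl_neg one_pos ht) y, Hl_add (Hl_neg one_pos ht) y'⟩).symm
    · have h02 : R x (τ (τ x)) := ht _ _ _ hx hx2 (Ne.symm h20)
      have h10 : R (τ x) x := hs _ _ hx
      have h20' : R (τ (τ x)) x := hs _ _ h02
      obtain ⟨r, hr⟩ := h.diag_one hM (τ x) (τ (τ x)) x hx2 h10 h20'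
      have e0 : n₀ (τ x) (τ (τ x)) = n₀ (τ x) x := by rw [i₀ _ _ hx, s₀ _ _ hx]
      have e2 : n₂ (τ x) (τ (τ x)) = n₂ (τ x) x := by rw [i₂ _ _ hx, s₂ _ _ hx]
      rw [e0, e2] at hr
      simp only [sub_self, add_zero, mul_zero, zero_mul, zero_div] at hr
      have hEc : ContinuousOn (fun z : ℂ × ℂ => D z - (L (τ x) (τ (τ x)) z.1 z.2 - L (τ x) x z.1 z.2))
          (Hl ×ˢ Hl) := hDc.sub ((h.cont _ _ hx2).sub (h.cont _ _ h10))
      obtain ⟨d, hd⟩ := const_of_exp hEc (-1) (by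
        rintro ⟨u, v⟩ ⟨hu, hv⟩
        simp only
        rw [Complex.exp_sub, hDe u hu v hv, h.exp_l hx2 h10 hu hv]
        have h1 := h.ne hx hu hv
        have h3 := h.ne h10 hu hv
        have h4 := h.ne hx2 hu hv
        field_simp
        ring)
      refine ⟨r + d, fun y y' => ?_⟩
      have hu1 := h.vertu (τ x) (τ (τ x)) x hx2 h10 h20' 1 1 one_pos one_pos r hr y
      have hv1 : Filter.Tendsto (fun t : ℝ =>
          L (τ x) (τ (τ x)) (-((1 : ℕ) * t) + y * Complex.I) (-((1 : ℕ) * t) + y' * Complex.I) -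
          L (τ x) x (-((1 : ℕ) * t) + y * Complex.I) (-((1 : ℕ) * t) + y' * Complex.I)) Filter.atTop
          (nhds r) := by
        obtain ⟨C, -, hC⟩ := vert
        refine tendsto_of_vert (C := C) (y := y') one_pos hu1 fun t ht => ?_
        exact hC _ _ (h.logOn_v (τ x) (τ (τ x)) x hx2 h10 h20' _ (Hl_add (Hl_neg one_pos ht) y)) _
          (Hl_neg one_pos ht) y'
      refine (hv1.add_const d).congr' ?_
      filter_upwards [Filter.eventually_gt_atTop (0 : ℝ)] with t ht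
      have h5 := hd (-((1 : ℕ) * t) + y * Complex.I, -((1 : ℕ) * t) + y' * Complex.I)
        ⟨Hl_add (Hl_neg one_pos ht) y, Hl_add (Hl_neg one_pos ht) y'⟩
      simp only at h5
      linear_combination -h5
  obtain ⟨κ, hκ⟩ := hlim
  -- the sums
  set G : ℕ → ℝ → ℂ := fun j t => L x (τ x) (-((1 : ℕ) * t) + (-(j * Real.pi) : ℝ) * Complex.I)
    (-((1 : ℕ) * t) + (j * Real.pi : ℝ) * Complex.I) - L x (τ x) (-((1 : ℕ) * t)) (-((1 : ℕ) * t)) with hG
  have hGs : ∀ j t, G (j + 1) t = G j t + D (-((1 : ℕ) * t) + (-(j * Real.pi) : ℝ) * Complex.I,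
      -((1 : ℕ) * t) + (j * Real.pi : ℝ) * Complex.I) := by
    intro j t
    have e1 : (-((1 : ℕ) * t) + ((-(j * Real.pi) : ℝ) : ℂ) * Complex.I - Real.pi * Complex.I : ℂ) =
        -((1 : ℕ) * t) + ((-((j + 1 : ℕ) * Real.pi) : ℝ) : ℂ) * Complex.I := by
      push_cast
      ring
    have e2 : (-((1 : ℕ) * t) + (((j * Real.pi) : ℝ) : ℂ) * Complex.I + Real.pi * Complex.I : ℂ) =
        -((1 : ℕ) * t) + ((((j + 1 : ℕ) * Real.pi) : ℝ) : ℂ) * Complex.I := by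
      push_cast
      ring
    simp only [hG, hD]
    rw [e1, e2]
    ring
  have hGl : ∀ j, Filter.Tendsto (G j) Filter.atTop (nhds (j * κ)) := by
    intro j
    induction j with
    | zero =>
      have h0 : ∀ t, G 0 t = 0 := by
        intro t
        simp only [hG]
        simp
      rw [show G 0 = fun _ => (0 : ℂ) from funext h0, Nat.cast_zero, zero_mul]
      exact tendsto_const_nhds
    | succ j ih =>
      rw [show G (j + 1) = fun t => G j t + D (-((1 : ℕ) * t) + (-(j * Real.pi) : ℝ) * Complex.I,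
        -((1 : ℕ) * t) + (j * Real.pi : ℝ) * Complex.I) from funext (hGs j)]
      have h1 := ih.add (hκ (-(j * Real.pi)) (j * Real.pi))
      have e1 : (((j + 1 : ℕ) : ℂ) * κ) = j * κ + κ := by
        push_cast
        ring
      rw [e1]
      exact h1
  have hGM : ∀ t : ℝ, 0 < t → G M t = 0 := by
    intro t htp
    have hz : (-((1 : ℕ) * (t : ℂ)) : ℂ) ∈ Hl := Hl_neg one_pos htp
    simp only [hG]
    set z : ℂ := -((1 : ℕ) * (t : ℂ)) with hzd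
    have h1 := h.Ltru x (τ x) hx (z + (-(M * Real.pi) : ℝ) * Complex.I) (Hl_add hz _)
      (z + (M * Real.pi : ℝ) * Complex.I) (Hl_add hz _)
    have h2 := h.Ltrv x (τ x) hx z hz z hz
    have e1 : z + ((-(M * Real.pi) : ℝ) : ℂ) * Complex.I + M * (Real.pi * Complex.I) = z := by
      push_cast
      ring
    have e2 : z + ((M * Real.pi : ℝ) : ℂ) * Complex.I = z + M * (Real.pi * Complex.I) := by
      push_cast
      ring
    rw [e1, e2, h2, ← hn] at h1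
    rw [e2]
    linear_combination -h1
  have hκ0 : κ = 0 := by
    have h1 : Filter.Tendsto (G M) Filter.atTop (nhds 0) := by
      refine (tendsto_const_nhds (x := (0 : ℂ))).congr' ?_
      filter_upwards [Filter.eventually_gt_atTop (0 : ℝ)] with t ht
      exact (hGM t ht).symm
    have h2 := tendsto_nhds_unique (hGl M) h1
    rcases mul_eq_zero.1 h2 with h3 | h3
    · exact absurd h3 (by exact_mod_cast hM.ne')
    · exact h3
  have hGl0 : ∀ j, Filter.Tendsto (fun t => Complex.exp (G j t)) Filter.atTop (nhds 1) := by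
    intro j
    have h1 := (Complex.continuous_exp.tendsto _).comp (hGl j)
    rw [hκ0, mul_zero, Complex.exp_zero] at h1
    exact h1
  have hsum : Filter.Tendsto (fun t => ∑ j ∈ Finset.range M, Complex.exp (G j t)) Filter.atTop
      (nhds (∑ _j ∈ Finset.range M, (1 : ℂ))) := tendsto_finsetSum _ fun j _ => hGl0 j
  rw [Finset.sum_const, Finset.card_range, nsmul_eq_mul, mul_one] at hsum
  have hzero : ∀ t : ℝ, 0 < t → ∑ j ∈ Finset.range M, Complex.exp (G j t) = 0 := by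
    intro t htp
    have hz : (-((1 : ℕ) * (t : ℂ)) : ℂ) ∈ Hl := Hl_neg one_pos htp
    have h1 : ∀ j : ℕ, Complex.exp (G j t) =
        (W ((τ ^ j) x) (-((1 : ℕ) * t)) (-((1 : ℕ) * t)) - W ((τ ^ (j + 1)) x) (-((1 : ℕ) * t)) (-((1 : ℕ) * t))) /
          (W x (-((1 : ℕ) * t)) (-((1 : ℕ) * t)) - W (τ x) (-((1 : ℕ) * t)) (-((1 : ℕ) * t))) := by
      intro j
      simp only [hG]
      rw [Complex.exp_sub, h.exp x (τ x) hx _ (Hl_add hz _) _ (Hl_add hz _), h.exp x (τ x) hx _ hz _ hz,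
        h.W_tauj hc j x _ hz _ hz, h.W_tauj hc j (τ x) _ hz _ hz, ← Equiv.Perm.mul_apply, ← pow_succ]
    have hcm : Commute σ₀ σ₂ := hc
    have hτM : (τ ^ M) x = x := by
      rw [hτ, hcm.inv_left.mul_pow, Equiv.Perm.mul_apply, h.pv, inv_pow, Equiv.Perm.inv_eq_iff_eq, h.pu]
    rw [Finset.sum_congr rfl fun j _ => h1 j, ← Finset.sum_div, Finset.sum_range_sub', pow_zero,
      Equiv.Perm.one_apply, hτM, sub_self, zero_div]
  have h1 : Filter.Tendsto (fun t => ∑ j ∈ Finset.range M, Complex.exp (G j t)) Filter.atTop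
      (nhds (0 : ℂ)) := by
    refine (tendsto_const_nhds (x := (0 : ℂ))).congr' ?_
    filter_upwards [Filter.eventually_gt_atTop (0 : ℝ)] with t ht
    exact (hzero t ht).symm
  have h2 := tendsto_nhds_unique hsum h1
  exact absurd h2 (by exact_mod_cast hM.ne')

end Pool.Agent.Helper96.LN6
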