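import Pool.Agent.Helper96.LN6.RFam
import Pool.Agent.Helper96.LN3.OneVar

/-!
# LN3-L9/L10 (MP_730da0_ag): A1, A2, A3

Paper proof.  `a, b, c` distinct.  `λ = (W_a - W_b)/(W_a - W_c)` omits `0` (`W_a ≠ W_b`: `exp`) and `1` (`W_b ≠ W_c`); `L = L_ab - L_ac`, `exp L = λ`; `α = n₀ a b - n₀ a c`, `β = n₂ a b - n₂ a c`;
`L (u + Mπi, v) = L + 2πi α`, `L (u, v + Mπi) = L + 2πi β`; `λ` is unchanged under both translations.
`logOn_u`, `logOn_v`, `logOn_d`: `LogOn` along `u`, along `v`, along `z ↦ (p z, q z)`.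
`diag`: `one_var` for `z ↦ (p z, q z)`, `n = p α + q β`: `L (-p t, -q t) + 2 (p α + q β) t/M → c`.
`vertu`: if `L (-p t, -q t)` is bounded for large `t`, then `L (-p t + i y, -q t) - L (-p t, -q t) → 0` for every real `y` (`vert`: `(1 + bound) (e^(C|y|/(p t)) - 1) → 0`); the same for `v`.
A1: if `α β < 0` take `p = |β|`, `q = |α|`: `p α + q β = 0`, so `L (-p t, -q t)` converges; `vertu` with `y = Mπ`: `2πi α → 0`, so `α = 0`, contradiction.
A2: `α = β = 0`, `p = q = 1`: `L (-t,-t) → c`, `r = e^c`; `rat x (σ₀ a) (σ₀ b) (σ₀ c) t = λ (-t + πi, -t) = exp L (-t + πi, -t)` (`tru`), and `L (-t + πi, -t) - L (-t,-t) → 0`.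
A3: `α, β ≥ 0`, not both `0`: `L (-t,-t) + 2 (α + β) t/M → c`, so `Re L (-t,-t) → -∞`.
-/

namespace Pool.Agent.Helper96.LN6

open Pool.Agent.Helper96.LN3

variable {F : Type} {R : F → F → Prop} {σ₀ σ₂ : Equiv.Perm F} {n₀ n₂ : F → F → ℤ} {M : ℕ} {W : F → ℂ → ℂ → ℂ} {L : F → F → ℂ → ℂ → ℂ}

theorem Hl_open : IsOpen Hl := isOpen_lt Complex.continuous_re continuous_const

theorem Hl_mul {p : ℕ} (hp : 0 < p) {z : ℂ} (hz : z ∈ Hl) : (p : ℂ) * z ∈ Hl := by
  show ((p : ℂ) * z).re < 0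
  have h1 : ((p : ℂ) * z).re = (p : ℝ) * z.re := by
    rw [← Complex.ofReal_natCast, Complex.re_ofReal_mul]
  rw [h1]
  exact mul_neg_of_pos_of_neg (by exact_mod_cast hp) hz

theorem Hl_add {z : ℂ} (hz : z ∈ Hl) (y : ℝ) : z + y * Complex.I ∈ Hl := by
  show (z + y * Complex.I).re < 0
  have hz2 : z.re < 0 := hz
  simpa using hz2

theorem Hl_neg {p : ℕ} (hp : 0 < p) {t : ℝ} (ht : 0 < t) : (-((p : ℂ) * (t : ℂ))) ∈ Hl := by
  show (-((p : ℂ) * (t : ℂ))).re < 0
  have h1 : (-((p : ℂ) * (t : ℂ))).re = -((p : ℝ) * t) := by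
    rw [Complex.neg_re, ← Complex.ofReal_natCast, Complex.re_ofReal_mul, Complex.ofReal_re]
  rw [h1]
  have : 0 < (p : ℝ) * t := mul_pos (by exact_mod_cast hp) ht
  linarith

theorem RFam.ne (h : RFam R σ₀ σ₂ n₀ n₂ M W L) {a b : F} (hab : R a b) {u v : ℂ} (hu : u ∈ Hl)
    (hv : v ∈ Hl) : W a u v - W b u v ≠ 0 := by
  rw [← h.exp a b hab u hu v hv]
  exact Complex.exp_ne_zero _

theorem RFam.exp_l (h : RFam R σ₀ σ₂ n₀ n₂ M W L) {a b c : F} (hab : R a b) (hac : R a c)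
    {u v : ℂ} (hu : u ∈ Hl) (hv : v ∈ Hl) : Complex.exp (L a b u v - L a c u v) =
      (W a u v - W b u v) / (W a u v - W c u v) := by
  rw [Complex.exp_sub, h.exp a b hab u hu v hv, h.exp a c hac u hu v hv]

theorem RFam.omit (h : RFam R σ₀ σ₂ n₀ n₂ M W L) {a b c : F} (hab : R a b) (hac : R a c)
    (hbc : R b c) {u v : ℂ} (hu : u ∈ Hl) (hv : v ∈ Hl) :
    (W a u v - W b u v) / (W a u v - W c u v) ≠ 0 ∧
      (W a u v - W b u v) / (W a u v - W c u v) ≠ 1 := by
  refine ⟨div_ne_zero (h.ne hab hu hv) (h.ne hac hu hv), fun h1 => ?_⟩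
  rw [div_eq_one_iff_eq (h.ne hac hu hv)] at h1
  exact h.ne hbc hu hv (by linear_combination -h1)

theorem RFam.logOn_u (h : RFam R σ₀ σ₂ n₀ n₂ M W L) (a b c : F) (hab : R a b) (hac : R a c) (hbc : R b c)
    (v : ℂ) (hv : v ∈ Hl) :
    LogOn (fun u => (W a u v - W b u v) / (W a u v - W c u v)) (fun u => L a b u v - L a c u v) where
  diff := ((h.holu a v hv).sub (h.holu b v hv)).div ((h.holu a v hv).sub (h.holu c v hv))
    fun u hu => h.ne hac hu hv
  ne := fun u hu => h.omit hab hac hbc hu hv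
  cont := by
    have hc : ∀ b, R a b → ContinuousOn (fun u => L a b u v) Hl := fun b hab =>
      ContinuousOn.comp (h.cont a b hab) (f := fun u : ℂ => (u, v)) (by fun_prop)
        fun u hu => ⟨hu, hv⟩
    exact (hc b hab).sub (hc c hac)
  exp := fun u hu => h.exp_l hab hac hu hv

theorem RFam.logOn_v (h : RFam R σ₀ σ₂ n₀ n₂ M W L) (a b c : F) (hab : R a b) (hac : R a c) (hbc : R b c)
    (u : ℂ) (hu : u ∈ Hl) :
    LogOn (fun v => (W a u v - W b u v) / (W a u v - W c u v)) (fun v => L a b u v - L a c u v) where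
  diff := ((h.holv a u hu).sub (h.holv b u hu)).div ((h.holv a u hu).sub (h.holv c u hu))
    fun v hv => h.ne hac hu hv
  ne := fun v hv => h.omit hab hac hbc hu hv
  cont := by
    have hc : ∀ b, R a b → ContinuousOn (fun v => L a b u v) Hl := fun b hab =>
      ContinuousOn.comp (h.cont a b hab) (f := fun v : ℂ => (u, v)) (by fun_prop)
        fun v hv => ⟨hu, hv⟩
    exact (hc b hab).sub (hc c hac)
  exp := fun v hv => h.exp_l hab hac hu hv

theorem RFam.logOn_d (h : RFam R σ₀ σ₂ n₀ n₂ M W L) (a b c : F) (hab : R a b) (hac : R a c)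
    (hbc : R b c) (p q : ℕ) (hp : 0 < p) (hq : 0 < q) :
    LogOn (fun z : ℂ => (W a (p * z) (q * z) - W b (p * z) (q * z)) /
      (W a (p * z) (q * z) - W c (p * z) (q * z)))
      (fun z : ℂ => L a b (p * z) (q * z) - L a c (p * z) (q * z)) where
  diff := ((h.hold a p q hp hq).sub (h.hold b p q hp hq)).div
    ((h.hold a p q hp hq).sub (h.hold c p q hp hq)) fun z hz => h.ne hac (Hl_mul hp hz) (Hl_mul hq hz)
  ne := fun z hz => h.omit hab hac hbc (Hl_mul hp hz) (Hl_mul hq hz)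
  cont := by
    have hc : ∀ b, R a b → ContinuousOn (fun z : ℂ => L a b (p * z) (q * z)) Hl := fun b hab =>
      ContinuousOn.comp (h.cont a b hab) (f := fun z : ℂ => ((p : ℂ) * z, (q : ℂ) * z)) (by fun_prop)
        fun z hz => ⟨Hl_mul hp hz, Hl_mul hq hz⟩
    exact (hc b hab).sub (hc c hac)
  exp := fun z hz => h.exp_l hab hac (Hl_mul hp hz) (Hl_mul hq hz)

theorem Hl_addN {z : ℂ} (hz : z ∈ Hl) (m : ℕ) : z + m * (Real.pi * Complex.I) ∈ Hl := by
  have h1 := Hl_add hz (m * Real.pi)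
  convert h1 using 2
  push_cast
  ring

theorem RFam.Wu (h : RFam R σ₀ σ₂ n₀ n₂ M W L) (m : ℕ) : ∀ a, ∀ u ∈ Hl, ∀ v ∈ Hl,
    W a (u + m * (Real.pi * Complex.I)) v = W ((σ₀ ^ m) a) u v := by
  induction m with
  | zero => intro a u _ v _; simp
  | succ m ih =>
    intro a u hu v hv
    have h1 : u + ((m + 1 : ℕ) : ℂ) * (Real.pi * Complex.I) =
        (u + m * (Real.pi * Complex.I)) + Real.pi * Complex.I := by
      push_cast
      ring
    rw [h1, h.tru a _ (Hl_addN hu m) v hv, ih (σ₀ a) u hu v hv, pow_succ, Equiv.Perm.mul_apply]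

theorem RFam.Wv (h : RFam R σ₀ σ₂ n₀ n₂ M W L) (m : ℕ) : ∀ a, ∀ u ∈ Hl, ∀ v ∈ Hl,
    W a u (v + m * (Real.pi * Complex.I)) = W ((σ₂ ^ m) a) u v := by
  induction m with
  | zero => intro a u _ v _; simp
  | succ m ih =>
    intro a u hu v hv
    have h1 : v + ((m + 1 : ℕ) : ℂ) * (Real.pi * Complex.I) =
        (v + m * (Real.pi * Complex.I)) + Real.pi * Complex.I := by
      push_cast
      ring
    rw [h1, h.trv a u hu _ (Hl_addN hv m), ih (σ₂ a) u hu v hv, pow_succ, Equiv.Perm.mul_apply]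

theorem pow_fix {σ : Equiv.Perm F} {a : F} {M : ℕ} (h : (σ ^ M) a = a) (p : ℕ) :
    (σ ^ (p * M)) a = a := by
  rw [mul_comm, pow_mul]
  induction p with
  | zero => simp
  | succ p ih => rw [pow_succ, Equiv.Perm.mul_apply, h, ih]

theorem RFam.Wper (h : RFam R σ₀ σ₂ n₀ n₂ M W L) (p q : ℕ) (a : F) {u v : ℂ} (hu : u ∈ Hl)
    (hv : v ∈ Hl) : W a (u + p * (M * (Real.pi * Complex.I))) (v + q * (M * (Real.pi * Complex.I))) =
      W a u v := by
  have h1 : u + p * (M * (Real.pi * Complex.I)) = u + ((p * M : ℕ) : ℂ) * (Real.pi * Complex.I) := by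
    push_cast
    ring
  have h2 : v + q * (M * (Real.pi * Complex.I)) = v + ((q * M : ℕ) : ℂ) * (Real.pi * Complex.I) := by
    push_cast
    ring
  rw [h1, h2, h.Wu (p * M) a u hu _ (Hl_addN hv _), pow_fix (h.pu a) p,
    h.Wv (q * M) a u hu v hv, pow_fix (h.pv a) q]

theorem Hl_addM {z : ℂ} (hz : z ∈ Hl) (p M : ℕ) :
    z + p * (M * (Real.pi * Complex.I)) ∈ Hl := by
  have h1 := Hl_addN hz (p * M)
  convert h1 using 2
  push_cast
  ring

theorem RFam.Lu (h : RFam R σ₀ σ₂ n₀ n₂ M W L) {a b : F} (hab : R a b) (p : ℕ) {u v : ℂ}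
    (hu : u ∈ Hl) (hv : v ∈ Hl) : L a b (u + p * (M * (Real.pi * Complex.I))) v =
      L a b u v + p * (2 * Real.pi * Complex.I * n₀ a b) := by
  induction p with
  | zero => simp
  | succ p ih =>
    have h1 : u + ((p + 1 : ℕ) : ℂ) * (M * (Real.pi * Complex.I)) =
        (u + p * (M * (Real.pi * Complex.I))) + M * (Real.pi * Complex.I) := by
      push_cast
      ring
    rw [h1, h.Ltru a b hab _ (Hl_addM hu p M) v hv, ih]
    push_cast
    ring

theorem RFam.Lv (h : RFam R σ₀ σ₂ n₀ n₂ M W L) {a b : F} (hab : R a b) (q : ℕ) {u v : ℂ}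
    (hu : u ∈ Hl) (hv : v ∈ Hl) : L a b u (v + q * (M * (Real.pi * Complex.I))) =
      L a b u v + q * (2 * Real.pi * Complex.I * n₂ a b) := by
  induction q with
  | zero => simp
  | succ q ih =>
    have h1 : v + ((q + 1 : ℕ) : ℂ) * (M * (Real.pi * Complex.I)) =
        (v + q * (M * (Real.pi * Complex.I))) + M * (Real.pi * Complex.I) := by
      push_cast
      ring
    rw [h1, h.Ltrv a b hab u hu _ (Hl_addM hv q M), ih]
    push_cast
    ring

theorem RFam.diag (h : RFam R σ₀ σ₂ n₀ n₂ M W L) (hM : 0 < M) (a b c : F) (hab : R a b) (hac : R a c)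
    (hbc : R b c) (p q : ℕ) (hp : 0 < p) (hq : 0 < q) :
    ∃ r : ℂ, Filter.Tendsto (fun t : ℝ => L a b (-(p * t)) (-(q * t)) - L a c (-(p * t)) (-(q * t)) +
      2 * (p * (n₀ a b - n₀ a c) + q * (n₂ a b - n₂ a c)) * t / M) Filter.atTop (nhds r) := by
  obtain ⟨r, hr⟩ := one_var _ _ (h.logOn_d a b c hab hac hbc p q hp hq) M hM
    (p * (n₀ a b - n₀ a c) + q * (n₂ a b - n₂ a c))
    (by
      intro z hz
      have e1 : (p : ℂ) * (z + M * (Real.pi * Complex.I)) = p * z + p * (M * (Real.pi * Complex.I)) := by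
        ring
      have e2 : (q : ℂ) * (z + M * (Real.pi * Complex.I)) = q * z + q * (M * (Real.pi * Complex.I)) := by
        ring
      simp only [e1, e2, h.Wper p q _ (Hl_mul hp hz) (Hl_mul hq hz)])
    (by
      intro z hz
      have e1 : (p : ℂ) * (z + M * (Real.pi * Complex.I)) = p * z + p * (M * (Real.pi * Complex.I)) := by
        ring
      have e2 : (q : ℂ) * (z + M * (Real.pi * Complex.I)) = q * z + q * (M * (Real.pi * Complex.I)) := by
        ring
      simp only [e1, e2]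
      rw [h.Lu hab p (Hl_mul hp hz) (Hl_addM (Hl_mul hq hz) q M), h.Lv hab q (Hl_mul hp hz) (Hl_mul hq hz),
        h.Lu hac p (Hl_mul hp hz) (Hl_addM (Hl_mul hq hz) q M), h.Lv hac q (Hl_mul hp hz) (Hl_mul hq hz)]
      push_cast
      ring)
  refine ⟨r, hr.congr fun t => ?_⟩
  simp only [mul_neg]
  push_cast
  rfl

/-- The estimate of `vert` makes vertical differences tend to zero. -/
theorem tendsto_of_vert {C y : ℝ} {p : ℕ} (hp : 0 < p) {f g : ℝ → ℂ} {r : ℂ}
    (hf : Filter.Tendsto f Filter.atTop (nhds r))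
    (hfg : ∀ t : ℝ, 0 < t → ‖g t - f t‖ ≤ (1 + |(f t).re|) *
      (Real.exp (C * |y| / |(-((p : ℂ) * (t : ℂ))).re|) - 1)) :
    Filter.Tendsto g Filter.atTop (nhds r) := by
  have hpR : (0 : ℝ) < p := by exact_mod_cast hp
  have hre : ∀ t : ℝ, 0 < t → |(-((p : ℂ) * (t : ℂ))).re| = p * t := by
    intro t ht
    have h1 : (-((p : ℂ) * (t : ℂ))).re = -((p : ℝ) * t) := by
      rw [Complex.neg_re, ← Complex.ofReal_natCast, Complex.re_ofReal_mul, Complex.ofReal_re]
    rw [h1, abs_neg, abs_of_pos (mul_pos hpR ht)]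
  have h1 : Filter.Tendsto (fun t : ℝ => (1 + |(f t).re|) * (Real.exp (C * |y| / (p * t)) - 1))
      Filter.atTop (nhds ((1 + |r.re|) * (Real.exp 0 - 1))) := by
    refine Filter.Tendsto.mul ?_ ?_
    · exact ((Complex.continuous_re.tendsto r).comp hf).abs.const_add 1
    · refine Filter.Tendsto.sub_const ((Real.continuous_exp.tendsto 0).comp ?_) 1
      refine Filter.Tendsto.div_atTop tendsto_const_nhds ?_
      exact Filter.tendsto_id.const_mul_atTop hpR
  rw [Real.exp_zero, sub_self, mul_zero] at h1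
  have h2 : Filter.Tendsto (fun t => g t - f t) Filter.atTop (nhds 0) := by
    refine squeeze_zero_norm' ?_ h1
    filter_upwards [Filter.eventually_gt_atTop (0 : ℝ)] with t ht
    have h3 := hfg t ht
    rwa [hre t ht] at h3
  have h3 := h2.add hf
  rw [zero_add] at h3
  exact h3.congr fun t => sub_add_cancel _ _

theorem RFam.vertu (h : RFam R σ₀ σ₂ n₀ n₂ M W L) (a b c : F) (hab : R a b) (hac : R a c)
    (hbc : R b c) (p q : ℕ) (hp : 0 < p) (hq : 0 < q) (r : ℂ)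
    (hr : Filter.Tendsto (fun t : ℝ => L a b (-(p * t)) (-(q * t)) - L a c (-(p * t)) (-(q * t)))
      Filter.atTop (nhds r)) (y : ℝ) :
    Filter.Tendsto (fun t : ℝ => L a b (-(p * t) + y * Complex.I) (-(q * t)) -
      L a c (-(p * t) + y * Complex.I) (-(q * t))) Filter.atTop (nhds r) := by
  obtain ⟨C, -, hC⟩ := vert
  refine tendsto_of_vert (C := C) (y := y) hp hr fun t ht => ?_
  exact hC _ _ (h.logOn_u a b c hab hac hbc _ (Hl_neg hq ht)) _ (Hl_neg hp ht) y

theorem RFam.vertv (h : RFam R σ₀ σ₂ n₀ n₂ M W L) (a b c : F) (hab : R a b) (hac : R a c)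
    (hbc : R b c) (p q : ℕ) (hp : 0 < p) (hq : 0 < q) (r : ℂ)
    (hr : Filter.Tendsto (fun t : ℝ => L a b (-(p * t)) (-(q * t)) - L a c (-(p * t)) (-(q * t)))
      Filter.atTop (nhds r)) (y : ℝ) :
    Filter.Tendsto (fun t : ℝ => L a b (-(p * t)) (-(q * t) + y * Complex.I) -
      L a c (-(p * t)) (-(q * t) + y * Complex.I)) Filter.atTop (nhds r) := by
  obtain ⟨C, -, hC⟩ := vert
  refine tendsto_of_vert (C := C) (y := y) hq hr fun t ht => ?_
  exact hC _ _ (h.logOn_v a b c hab hac hbc _ (Hl_neg hp ht)) _ (Hl_neg hq ht) y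

theorem RFam.opp (h : RFam R σ₀ σ₂ n₀ n₂ M W L) (hM : 0 < M) (a b c : F) (hab : R a b) (hac : R a c)
    (hbc : R b c) : 0 ≤ (n₀ a b - n₀ a c) * (n₂ a b - n₂ a c) := by
  by_contra hcon
  push Not at hcon
  set α := n₀ a b - n₀ a c with hα
  set β := n₂ a b - n₂ a c with hβ
  have hα0 : α ≠ 0 := by
    intro h0
    rw [h0, zero_mul] at hcon
    exact lt_irrefl _ hcon
  have hβ0 : β ≠ 0 := by
    intro h0
    rw [h0, mul_zero] at hcon
    exact lt_irrefl _ hcon
  have hp : 0 < β.natAbs := Int.natAbs_pos.2 hβ0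
  have hq : 0 < α.natAbs := Int.natAbs_pos.2 hα0
  have hsum : ((β.natAbs : ℕ) : ℤ) * α + ((α.natAbs : ℕ) : ℤ) * β = 0 := by
    rw [Int.natCast_natAbs, Int.natCast_natAbs]
    rcases lt_or_gt_of_ne hα0 with h1 | h1
    · have h2 : 0 < β := by
        by_contra h3
        push Not at h3
        have := mul_nonneg_of_nonpos_of_nonpos h1.le h3
        linarith
      rw [abs_of_pos h2, abs_of_neg h1]
      ring
    · have h2 : β < 0 := by
        by_contra h3
        push Not at h3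
        have := mul_nonneg h1.le h3
        linarith
      rw [abs_of_neg h2, abs_of_pos h1]
      ring
  obtain ⟨r, hr⟩ := h.diag hM a b c hab hac hbc β.natAbs α.natAbs hp hq
  have hsumC : ((β.natAbs : ℕ) : ℂ) * (n₀ a b - n₀ a c) + ((α.natAbs : ℕ) : ℂ) * (n₂ a b - n₂ a c) = 0 := by
    have h1 := congrArg (fun n : ℤ => (n : ℂ)) hsum
    simp only [Int.cast_add, Int.cast_mul, Int.cast_natCast, Int.cast_zero] at h1
    rw [hα, hβ] at h1
    rw [Int.cast_sub, Int.cast_sub] at h1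
    exact h1
  rw [hsumC] at hr
  simp only [mul_zero, zero_mul, zero_div, add_zero] at hr
  have hv := h.vertu a b c hab hac hbc β.natAbs α.natAbs hp hq r hr (M * Real.pi)
  have hr2 := hr.add_const (2 * Real.pi * Complex.I * (α : ℂ))
  have heq : r = r + 2 * Real.pi * Complex.I * (α : ℂ) := by
    refine tendsto_nhds_unique hv (hr2.congr' ?_)
    filter_upwards [Filter.eventually_gt_atTop (0 : ℝ)] with t ht
    have e1 : (((M : ℝ) * Real.pi : ℝ) : ℂ) * Complex.I = M * (Real.pi * Complex.I) := by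
      push_cast
      ring
    rw [e1, h.Ltru a b hab _ (Hl_neg hp ht) _ (Hl_neg hq ht),
      h.Ltru a c hac _ (Hl_neg hp ht) _ (Hl_neg hq ht), hα]
    push_cast
    ring
  have h0 : 2 * Real.pi * Complex.I * (α : ℂ) = 0 := by
    have := heq.symm
    rwa [add_eq_left] at this
  rcases mul_eq_zero.1 h0 with h1 | h1
  · exact Complex.two_pi_I_ne_zero h1
  · exact hα0 (by exact_mod_cast h1)

theorem RFam.diag_one (h : RFam R σ₀ σ₂ n₀ n₂ M W L) (hM : 0 < M) (a b c : F) (hab : R a b)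
    (hac : R a c) (hbc : R b c) :
    ∃ r : ℂ, Filter.Tendsto (fun t : ℝ => L a b (-((1 : ℕ) * t)) (-((1 : ℕ) * t)) -
      L a c (-((1 : ℕ) * t)) (-((1 : ℕ) * t)) +
      2 * ((n₀ a b - n₀ a c) + (n₂ a b - n₂ a c)) * t / M) Filter.atTop (nhds r) := by
  obtain ⟨r, hr⟩ := h.diag hM a b c hab hac hbc 1 1 one_pos one_pos
  refine ⟨r, hr.congr fun t => ?_⟩
  rw [Nat.cast_one, one_mul, one_mul, one_mul]

theorem RFam.lim (h : RFam R σ₀ σ₂ n₀ n₂ M W L) (hM : 0 < M) (a b c : F) (hab : R a b) (hac : R a c)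
    (hbc : R b c) (h0 : n₀ a b = n₀ a c) (h2 : n₂ a b = n₂ a c) :
    ∃ r : ℂ, r ≠ 0 ∧ Filter.Tendsto (rat (fun a t => W a (-t) (-t)) a b c) Filter.atTop (nhds r) ∧
      Filter.Tendsto (rat (fun a t => W a (-t) (-t)) (σ₀ a) (σ₀ b) (σ₀ c)) Filter.atTop (nhds r) ∧
      Filter.Tendsto (rat (fun a t => W a (-t) (-t)) (σ₂ a) (σ₂ b) (σ₂ c)) Filter.atTop (nhds r) := by
  obtain ⟨r, hr⟩ := h.diag_one hM a b c hab hac hbc
  rw [h0, h2] at hr
  simp only [sub_self, add_zero, mul_zero, zero_mul, zero_div] at hr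
  have hu := h.vertu a b c hab hac hbc 1 1 one_pos one_pos r hr Real.pi
  have hv := h.vertv a b c hab hac hbc 1 1 one_pos one_pos r hr Real.pi
  refine ⟨Complex.exp r, Complex.exp_ne_zero r, ?_, ?_, ?_⟩
  · refine ((Complex.continuous_exp.tendsto r).comp hr).congr' ?_
    filter_upwards [Filter.eventually_gt_atTop (0 : ℝ)] with t ht
    rw [Function.comp_apply, h.exp_l hab hac (Hl_neg one_pos ht) (Hl_neg one_pos ht)]
    simp only [rat, Nat.cast_one, one_mul]
  · refine ((Complex.continuous_exp.tendsto r).comp hu).congr' ?_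
    filter_upwards [Filter.eventually_gt_atTop (0 : ℝ)] with t ht
    rw [Function.comp_apply, h.exp_l hab hac (Hl_add (Hl_neg one_pos ht) _) (Hl_neg one_pos ht),
      h.tru a _ (Hl_neg one_pos ht) _ (Hl_neg one_pos ht),
      h.tru b _ (Hl_neg one_pos ht) _ (Hl_neg one_pos ht),
      h.tru c _ (Hl_neg one_pos ht) _ (Hl_neg one_pos ht)]
    simp only [rat, Nat.cast_one, one_mul]
  · refine ((Complex.continuous_exp.tendsto r).comp hv).congr' ?_
    filter_upwards [Filter.eventually_gt_atTop (0 : ℝ)] with t ht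
    rw [Function.comp_apply, h.exp_l hab hac (Hl_neg one_pos ht) (Hl_add (Hl_neg one_pos ht) _),
      h.trv a _ (Hl_neg one_pos ht) _ (Hl_neg one_pos ht),
      h.trv b _ (Hl_neg one_pos ht) _ (Hl_neg one_pos ht),
      h.trv c _ (Hl_neg one_pos ht) _ (Hl_neg one_pos ht)]
    simp only [rat, Nat.cast_one, one_mul]

theorem RFam.zero (h : RFam R σ₀ σ₂ n₀ n₂ M W L) (hM : 0 < M) (a b c : F) (hab : R a b) (hac : R a c)
    (hbc : R b c) (h0 : n₀ a c ≤ n₀ a b) (h2 : n₂ a c ≤ n₂ a b) (hne : ¬ (n₀ a b = n₀ a c ∧ n₂ a b = n₂ a c)) :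
    Filter.Tendsto (rat (fun a t => W a (-t) (-t)) a b c) Filter.atTop (nhds 0) := by
  obtain ⟨r, hr⟩ := h.diag_one hM a b c hab hac hbc
  set n : ℤ := (n₀ a b - n₀ a c) + (n₂ a b - n₂ a c) with hn
  have hnpos : 0 < n := by
    by_contra hcon
    push Not at hcon
    exact hne ⟨by omega, by omega⟩
  have hMR : (0 : ℝ) < M := by exact_mod_cast hM
  have hnR : (0 : ℝ) < n := by exact_mod_cast hnpos
  have hlim : Filter.Tendsto (fun t : ℝ => Complex.exp ((-(2 * (n : ℝ) / M * t) : ℝ) : ℂ))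
      Filter.atTop (nhds 0) := by
    rw [tendsto_zero_iff_norm_tendsto_zero]
    have h1 : (fun t : ℝ => ‖Complex.exp ((-(2 * (n : ℝ) / M * t) : ℝ) : ℂ)‖) =
        fun t : ℝ => Real.exp (-(2 * (n : ℝ) / M * t)) := by
      funext t
      rw [Complex.norm_exp, Complex.ofReal_re]
    rw [h1]
    refine Real.tendsto_exp_neg_atTop_nhds_zero.comp ?_
    exact Filter.tendsto_id.const_mul_atTop (by positivity)
  have h3 := ((Complex.continuous_exp.tendsto r).comp hr).mul hlim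
  rw [mul_zero] at h3
  refine h3.congr' ?_
  filter_upwards [Filter.eventually_gt_atTop (0 : ℝ)] with t ht
  rw [Function.comp_apply, ← Complex.exp_add]
  have e1 : L a b (-((1 : ℕ) * t)) (-((1 : ℕ) * t)) - L a c (-((1 : ℕ) * t)) (-((1 : ℕ) * t)) +
      2 * ((n₀ a b - n₀ a c) + (n₂ a b - n₂ a c)) * t / M + ((-(2 * (n : ℝ) / M * t) : ℝ) : ℂ) =
      L a b (-((1 : ℕ) * t)) (-((1 : ℕ) * t)) - L a c (-((1 : ℕ) * t)) (-((1 : ℕ) * t)) := by
    rw [hn]
    push_cast
    ring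
  rw [e1, h.exp_l hab hac (Hl_neg one_pos ht) (Hl_neg one_pos ht)]
  simp only [rat, Nat.cast_one, one_mul]

end Pool.Agent.Helper96.LN6
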