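import Pool.Agent.Helper96.LN3.Defs

/-!
# LN6-F0 (MP_730da0_ag): the two parameter family with colours (definition only)

`R a b` is `a ≠ b` and `a`, `b` have the same colour.  Only such pairs are compared.
LN3 `Fam` is the case `R = (· ≠ ·)`.
-/

namespace Pool.Agent.Helper96.LN6

open Pool.Agent.Helper96.LN3

/-- The two parameter family of roots and of logarithms of their differences (pairs `R a b` only). -/
structure RFam {F : Type} (R : F → F → Prop) (σ₀ σ₂ : Equiv.Perm F) (n₀ n₂ : F → F → ℤ) (M : ℕ)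
    (W : F → ℂ → ℂ → ℂ) (L : F → F → ℂ → ℂ → ℂ) : Prop where
  holu : ∀ a, ∀ v ∈ Hl, DifferentiableOn ℂ (fun u => W a u v) Hl
  holv : ∀ a, ∀ u ∈ Hl, DifferentiableOn ℂ (fun v => W a u v) Hl
  hold : ∀ a, ∀ p q : ℕ, 0 < p → 0 < q → DifferentiableOn ℂ (fun z : ℂ => W a (p * z) (q * z)) Hl
  cont : ∀ a b, R a b → ContinuousOn (fun z : ℂ × ℂ => L a b z.1 z.2) (Hl ×ˢ Hl)
  exp : ∀ a b, R a b → ∀ u ∈ Hl, ∀ v ∈ Hl, Complex.exp (L a b u v) = W a u v - W b u v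
  tru : ∀ a, ∀ u ∈ Hl, ∀ v ∈ Hl, W a (u + Real.pi * Complex.I) v = W (σ₀ a) u v
  trv : ∀ a, ∀ u ∈ Hl, ∀ v ∈ Hl, W a u (v + Real.pi * Complex.I) = W (σ₂ a) u v
  pu : ∀ a, (σ₀ ^ M) a = a
  pv : ∀ a, (σ₂ ^ M) a = a
  Ltru : ∀ a b, R a b → ∀ u ∈ Hl, ∀ v ∈ Hl, L a b (u + M * (Real.pi * Complex.I)) v =
    L a b u v + 2 * Real.pi * Complex.I * n₀ a b
  Ltrv : ∀ a b, R a b → ∀ u ∈ Hl, ∀ v ∈ Hl, L a b u (v + M * (Real.pi * Complex.I)) =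
    L a b u v + 2 * Real.pi * Complex.I * n₂ a b

end Pool.Agent.Helper96.LN6
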