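import Pool.Agent.Helper96.LN6.Opp

/-!
# LN6-F1 (MP_730da0_ag): (U), the windings are ultrametric (one variable)
-/

namespace Pool.Agent.Helper96.LN6

open Pool.Agent.Helper96.LN3

variable {F : Type} {R : F → F → Prop} {σ₀ σ₂ : Equiv.Perm F} {n₀ n₂ : F → F → ℤ} {M : ℕ} {W : F → ℂ → ℂ → ℂ}
  {L : F → F → ℂ → ℂ → ℂ}

theorem RFam.swap (h : RFam R σ₀ σ₂ n₀ n₂ M W L) :
    RFam R σ₂ σ₀ n₂ n₀ M (fun a u v => W a v u) (fun a b u v => L a b v u) where
  holu := fun a v hv => h.holv a v hv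
  holv := fun a u hu => h.holu a u hu
  hold := fun a p q hp hq => h.hold a q p hq hp
  cont := fun a b hab => ContinuousOn.comp (h.cont a b hab) (f := fun z : ℂ × ℂ => (z.2, z.1))
    (by fun_prop) fun z hz => ⟨hz.2, hz.1⟩
  exp := fun a b hab u hu v hv => h.exp a b hab v hv u hu
  tru := fun a u hu v hv => h.trv a v hv u hu
  trv := fun a u hu v hv => h.tru a v hv u hu
  pu := h.pv
  pv := h.pu
  Ltru := fun a b hab u hu v hv => h.Ltrv a b hab v hv u hu
  Ltrv := fun a b hab u hu v hv => h.Ltru a b hab v hv u hu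

private theorem m1 : (-1 : ℂ) ∈ Hl := by simp [Hl]

/-- The limit along `v`, `u = -1`. -/
theorem RFam.one_v (h : RFam R σ₀ σ₂ n₀ n₂ M W L) (hM : 0 < M) (a b c : F) (hab : R a b) (hac : R a c)
    (hbc : R b c) : ∃ r : ℂ, Filter.Tendsto (fun t : ℝ => L a b (-1) (-t) - L a c (-1) (-t) +
      2 * (n₂ a b - n₂ a c) * t / M) Filter.atTop (nhds r) := by
  obtain ⟨r, hr⟩ := one_var _ _ (h.logOn_v a b c hab hac hbc (-1) m1) M hM (n₂ a b - n₂ a c)
    (by
      intro z hz
      have e : ∀ x, W x (-1) (z + M * (Real.pi * Complex.I)) = W x (-1) z := by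
        intro x
        rw [h.Wv M x _ m1 z hz, h.pv x]
      simp only [e])
    (by
      intro z hz
      rw [h.Ltrv a b hab _ m1 z hz, h.Ltrv a c hac _ m1 z hz]
      push_cast
      ring)
  refine ⟨r, hr.congr fun t => ?_⟩
  push_cast
  rfl

private theorem re_aux {f : ℝ → ℂ} {r : ℂ} {n : ℤ} (hM : 0 < M)
    (hr : Filter.Tendsto (fun t : ℝ => f t + 2 * n * t / M) Filter.atTop (nhds r)) :
    Filter.Tendsto (fun t : ℝ => (f t).re + 2 * n * t / M) Filter.atTop (nhds r.re) := by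
  refine ((Complex.continuous_re.tendsto r).comp hr).congr fun t => ?_
  rw [Function.comp_apply, Complex.add_re]
  congr 1
  have h1 : (2 * (n : ℂ) * (t : ℂ) / (M : ℂ)) = ((2 * (n : ℝ) * t / (M : ℝ) : ℝ) : ℂ) := by
    push_cast
    rfl
  rw [h1, Complex.ofReal_re]

theorem RFam.ultra_v (h : RFam R σ₀ σ₂ n₀ n₂ M W L) (hM : 0 < M) (hs : ∀ a b, R a b → R b a)
    (a b c : F) (hab : R a b) (hac : R a c) (hbc : R b c) (h2 : n₂ a c < n₂ a b) : n₂ c b = n₂ c a := by
  have hMR : (0 : ℝ) < M := by exact_mod_cast hM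
  obtain ⟨r, hr⟩ := h.one_v hM a b c hab hac hbc
  obtain ⟨r', hr'⟩ := h.one_v hM c b a (hs _ _ hbc) (hs _ _ hac) (hs _ _ hab)
  have hre : Filter.Tendsto (fun t : ℝ => (L a b (-1) (-t) - L a c (-1) (-t)).re +
      2 * ((n₂ a b - n₂ a c : ℤ) : ℝ) * t / M) Filter.atTop (nhds r.re) := by
    refine re_aux hM (hr.congr fun t => ?_)
    push_cast
    rfl
  have hre' : Filter.Tendsto (fun t : ℝ => (L c b (-1) (-t) - L c a (-1) (-t)).re +
      2 * ((n₂ c b - n₂ c a : ℤ) : ℝ) * t / M) Filter.atTop (nhds r'.re) := by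
    refine re_aux hM (hr'.congr fun t => ?_)
    push_cast
    rfl
  have hpos : (0 : ℝ) < ((n₂ a b - n₂ a c : ℤ) : ℝ) := by
    have : 0 < n₂ a b - n₂ a c := by omega
    exact_mod_cast this
  -- the first ratio tends to zero
  have hlin : ∀ n : ℤ, (0 : ℝ) < n → Filter.Tendsto (fun t : ℝ => 2 * (n : ℝ) * t / M) Filter.atTop
      Filter.atTop := by
    intro n hn
    have h3 : (fun t : ℝ => 2 * (n : ℝ) * t / M) = fun t : ℝ => (2 * (n : ℝ) / M) * t := by
      funext t
      ring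
    rw [h3]
    exact Filter.tendsto_id.const_mul_atTop (by positivity)
  have hbot : Filter.Tendsto (fun t : ℝ => (L a b (-1) (-t) - L a c (-1) (-t)).re) Filter.atTop
      Filter.atBot := by
    have h3 := hre.add_atBot (Filter.tendsto_neg_atTop_atBot.comp (hlin _ hpos))
    refine h3.congr fun t => ?_
    rw [Function.comp_apply]
    ring
  have hl0 : Filter.Tendsto (fun t : ℝ => (W a (-1) (-t) - W b (-1) (-t)) / (W a (-1) (-t) - W c (-1) (-t)))
      Filter.atTop (nhds 0) := by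
    rw [tendsto_zero_iff_norm_tendsto_zero]
    refine (Real.tendsto_exp_atBot.comp hbot).congr' ?_
    filter_upwards [Filter.eventually_gt_atTop (0 : ℝ)] with t ht
    have ht' : (-(t : ℂ)) ∈ Hl := by
      have := Hl_neg (p := 1) one_pos ht
      simpa using this
    rw [Function.comp_apply, ← Complex.norm_exp, h.exp_l hab hac m1 ht']
  have hl1 : Filter.Tendsto (fun t : ℝ => (L c b (-1) (-t) - L c a (-1) (-t)).re) Filter.atTop
      (nhds 0) := by
    have h3 : Filter.Tendsto (fun t : ℝ => Real.log ‖1 - (W a (-1) (-t) - W b (-1) (-t)) /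
        (W a (-1) (-t) - W c (-1) (-t))‖) Filter.atTop (nhds (Real.log ‖(1 : ℂ) - 0‖)) := by
      refine Filter.Tendsto.log ?_ (by simp)
      exact (hl0.const_sub 1).norm
    rw [sub_zero, norm_one, Real.log_one] at h3
    refine h3.congr' ?_
    filter_upwards [Filter.eventually_gt_atTop (0 : ℝ)] with t ht
    have ht' : (-(t : ℂ)) ∈ Hl := by
      have := Hl_neg (p := 1) one_pos ht
      simpa using this
    have h4 : 1 - (W a (-1) (-t) - W b (-1) (-t)) / (W a (-1) (-t) - W c (-1) (-t)) =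
        Complex.exp (L c b (-1) (-t) - L c a (-1) (-t)) := by
      rw [h.exp_l (hs _ _ hbc) (hs _ _ hac) m1 ht']
      have h5 := h.ne hac m1 ht'
      have h6 := h.ne (hs _ _ hac) m1 ht'
      field_simp
      ring
    rw [h4, Complex.norm_exp, Real.log_exp]
  by_contra hne
  rcases lt_or_gt_of_ne hne with h3 | h3
  · have hp : (0 : ℝ) < ((n₂ c a - n₂ c b : ℤ) : ℝ) := by
      have : 0 < n₂ c a - n₂ c b := by omega
      exact_mod_cast this
    have h4 := hre'.neg.add hl1
    have h5 := hlin _ hp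
    refine not_tendsto_atTop_of_tendsto_nhds h4 (h5.congr fun t => ?_)
    push_cast
    ring
  · have hp : (0 : ℝ) < ((n₂ c b - n₂ c a : ℤ) : ℝ) := by
      have : 0 < n₂ c b - n₂ c a := by omega
      exact_mod_cast this
    have h4 := hre'.sub hl1
    have h5 := hlin _ hp
    refine not_tendsto_atTop_of_tendsto_nhds h4 (h5.congr fun t => ?_)
    push_cast
    ring

theorem RFam.ultra_u (h : RFam R σ₀ σ₂ n₀ n₂ M W L) (hM : 0 < M) (hs : ∀ a b, R a b → R b a)
    (a b c : F) (hab : R a b) (hac : R a c) (hbc : R b c) (h2 : n₀ a c < n₀ a b) : n₀ c b = n₀ c a :=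
  h.swap.ultra_v hM hs a b c hab hac hbc h2

end Pool.Agent.Helper96.LN6
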